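import Mathlib
import Pool.Agent.H99.BT.Exc

set_option autoImplicit false

/-! # When the transformations `x ↦ β x + α` modulo one are locally eventually onto -/

namespace Pool.Agent.Results.MP_ea58a7_an.LocallyEventuallyOnto

open Set

/-- the transformation `x ↦ β x + α` modulo `1` of `[0, 1)` -/
noncomputable def T (α β x : ℝ) : ℝ := Int.fract (β * x + α)

/-- topological transitivity on `[0, 1)` of the `k`-th iterate of `T`: for all nonempty relatively
open sets `U ∩ [0, 1)` and `V ∩ [0, 1)` some `T ^ (k n)` maps a point of the first into the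
second; for `k = 1` this is topological transitivity of `T` -/
def PowerTransitive (α β : ℝ) (k : ℕ) : Prop := ∀ U V : Set ℝ, IsOpen U → IsOpen V →
  (U ∩ Ico 0 1).Nonempty → (V ∩ Ico 0 1).Nonempty →
    ∃ n : ℕ, ((T α β)^[k * n] '' (U ∩ Ico 0 1) ∩ (V ∩ Ico 0 1)).Nonempty

/-- topological mixing of `T` on `[0, 1)` -/
def Mixing (α β : ℝ) : Prop := ∀ U V : Set ℝ, IsOpen U → IsOpen V →
  (U ∩ Ico 0 1).Nonempty → (V ∩ Ico 0 1).Nonempty →
    ∃ N : ℕ, ∀ n, N ≤ n → ((T α β)^[n] '' (U ∩ Ico 0 1) ∩ (V ∩ Ico 0 1)).Nonempty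

/-- `T` is locally eventually onto: each nonempty relatively open subset of `[0, 1)` is mapped
onto `[0, 1)` by some iterate -/
def EventuallyOnto (α β : ℝ) : Prop := ∀ U : Set ℝ, IsOpen U → (U ∩ Ico 0 1).Nonempty →
  ∃ n : ℕ, (T α β)^[n] '' (U ∩ Ico 0 1) = Ico 0 1

/-- In the two regions `α ≤ 1 - 1 / β` and `1 + 1 / β - β ≤ α` (which for `β ≤ √2` are the regions
of the question) `T` is topologically transitive, and it is locally eventually onto, or mixing,
or has all its iterates transitive, exactly if `(α, β)` is not one of the points with `β ^ n = 2`,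
`n ≥ 2`, on the two boundary curves `α = 1 - 1 / β` and `α = 1 + 1 / β - β`; at such a point
`T ^ n` is not transitive. -/
theorem result (α β : ℝ) (h1 : 1 < β) (h2 : 0 ≤ α) (h3 : α + β ≤ 2)
    (hC : α ≤ 1 - 1 / β ∨ 1 + 1 / β - β ≤ α) :
    PowerTransitive α β 1 ∧
      [EventuallyOnto α β, Mixing α β, ∀ k : ℕ, 1 ≤ k → PowerTransitive α β k,
        ¬ ((∃ n : ℕ, 2 ≤ n ∧ β ^ n = 2) ∧ (α = 1 - 1 / β ∨ α = 1 + 1 / β - β))].TFAE ∧
      ∀ n : ℕ, 2 ≤ n → β ^ n = 2 → (α = 1 - 1 / β ∨ α = 1 + 1 / β - β) →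
        ¬ PowerTransitive α β n := by
  have key : ∀ n : ℕ, 2 ≤ n → β ^ n = 2 → (α = 1 - 1 / β ∨ α = 1 + 1 / β - β) →
      ¬ PowerTransitive α β n := fun n hn hβ hα =>
    Pool.Agent.H99.BT.not_power h1 hn hβ hα
  refine ⟨Pool.Agent.H99.BT.transitive h1 h2 h3 hC, ?_, key⟩
  tfae_have 1 → 2 := fun h => Pool.Agent.H99.BT.mixing_of_leo h1 h2 h3 h
  tfae_have 2 → 3 := fun h k hk => Pool.Agent.H99.BT.power_of_mixing h k hk
  tfae_have 3 → 4 := fun h ⟨⟨n, hn, hβ⟩, hα⟩ => key n hn hβ hα (h n (by omega))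
  tfae_have 4 → 1 := fun h => Pool.Agent.H99.BT.leo h1 h2 h3 hC h
  tfae_finish

end Pool.Agent.Results.MP_ea58a7_an.LocallyEventuallyOnto
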